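import Mathlib
import Pool.Agent.Q166.EDom

set_option autoImplicit false

/-!
# Zelinka's inequality: the edge-domatic number is at least the minimum degree

Proof.  Let `k = δ(G) ≥ 1` and let `I` be a maximal independent set.  Split the edges of `G` into
proper edges inside `V \ I` and owned edges, each owned by one end outside `I`, in such a way
that every vertex outside `I` has at most `k - 1` proper edges, at least one owned edge, and at
least `k` of both together (start with all edges inside `V \ I` proper; as long as some vertex has
`k` or more proper edges, give one of them to its other end).  Colour the proper edges properly with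
`k` colours (Vizing), and let every vertex outside `I` use its owned edges for the colours it does
not see yet.  Every edge of `G` has an end outside `I`, and that end sees all `k` colours.
-/

namespace Pool.Agent.Results.MP_7b5b6d_co.ZelinkaBound

/-- `X` is a dominating set of `H`: every vertex is in `X` or has a neighbour in `X`. -/
def IsDominating {W : Type} (H : SimpleGraph W) (X : Set W) : Prop :=
  ∀ w, w ∈ X ∨ ∃ x ∈ X, H.Adj w x

/-- The vertex set of `H` can be split into `k` classes, each of which is a dominating set. -/
def HasDomaticPartition {W : Type} (H : SimpleGraph W) (k : ℕ) : Prop :=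
  ∃ c : W → Fin k, ∀ i : Fin k, IsDominating H {w | c w = i}

/-- The domatic number: the largest number of classes of a partition into dominating sets. -/
noncomputable def dom {W : Type} (H : SimpleGraph W) : ℕ := sSup {k | HasDomaticPartition H k}

/-- **Zelinka's inequality.** Every finite simple graph `G` satisfies `dom(L(G)) ≥ δ(G)`; if
`δ(G) ≥ 1`, then the edge set can be partitioned into exactly `δ(G)` edge-dominating sets. -/
theorem result (V : Type) [Fintype V] [DecidableEq V] (G : SimpleGraph V) [DecidableRel G.Adj] :
    G.minDegree ≤ dom G.lineGraph ∧
      (1 ≤ G.minDegree → HasDomaticPartition G.lineGraph G.minDegree) := by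
  classical
  have key : 1 ≤ G.minDegree → HasDomaticPartition G.lineGraph G.minDegree := fun h =>
    Pool.Agent.Q166.EDom.domatic_of_minDegree G h
  refine ⟨?_, key⟩
  rcases Nat.eq_zero_or_pos G.minDegree with h0 | hpos
  · omega
  · have hV : Nonempty V := by
      by_contra hne
      rw [not_nonempty_iff] at hne
      have : G.minDegree = 0 := by simp
      omega
    obtain ⟨v⟩ := hV
    have hdeg : 0 < G.degree v := lt_of_lt_of_le hpos (G.minDegree_le_degree v)
    obtain ⟨u, hu⟩ := (G.degree_pos_iff_exists_adj v).1 hdeg
    have hmem : G.minDegree ∈ {k | HasDomaticPartition G.lineGraph k} := key hpos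
    refine le_csSup ?_ hmem
    refine ⟨Fintype.card G.edgeSet, ?_⟩
    rintro k ⟨c, hc⟩
    have hsurj : Function.Surjective c := by
      intro i
      rcases hc i ⟨s(v, u), hu⟩ with h | ⟨x, hx, -⟩
      · exact ⟨_, h⟩
      · exact ⟨x, hx⟩
    have := Fintype.card_le_of_surjective c hsurj
    simpa using this

end Pool.Agent.Results.MP_7b5b6d_co.ZelinkaBound
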